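import Pool.Agent.Lib_helper1.VecMain
import Pool.Agent.Lib_helper1.C6.K000
import Pool.Agent.Lib_helper1.C6.K001
import Pool.Agent.Lib_helper1.C6.K002
import Pool.Agent.Lib_helper1.C6.K003
import Pool.Agent.Lib_helper1.C6.K004
import Pool.Agent.Lib_helper1.C6.K005
import Pool.Agent.Lib_helper1.C6.K006
import Pool.Agent.Lib_helper1.C6.K007
import Pool.Agent.Lib_helper1.C6.K008
import Pool.Agent.Lib_helper1.C6.K009
import Pool.Agent.Lib_helper1.C6.K010
import Pool.Agent.Lib_helper1.C6.K011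
import Pool.Agent.Lib_helper1.C6.K012
import Pool.Agent.Lib_helper1.C6.K013
import Pool.Agent.Lib_helper1.C6.K014
import Pool.Agent.Lib_helper1.C6.K015
import Pool.Agent.Lib_helper1.C6.K016
import Pool.Agent.Lib_helper1.C6.K017
import Pool.Agent.Lib_helper1.C6.K018
import Pool.Agent.Lib_helper1.C6.K019
import Pool.Agent.Lib_helper1.C6.K020
import Pool.Agent.Lib_helper1.C6.K021
import Pool.Agent.Lib_helper1.C6.K022
import Pool.Agent.Lib_helper1.C6.K023
import Pool.Agent.Lib_helper1.C6.K024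
import Pool.Agent.Lib_helper1.C6.K025
import Pool.Agent.Lib_helper1.C6.K026
import Pool.Agent.Lib_helper1.C6.K027
import Pool.Agent.Lib_helper1.C6.K028
import Pool.Agent.Lib_helper1.C6.K029
import Pool.Agent.Lib_helper1.C6.K030
import Pool.Agent.Lib_helper1.C6.K031
import Pool.Agent.Lib_helper1.C6.K032
import Pool.Agent.Lib_helper1.C6.K033
import Pool.Agent.Lib_helper1.C6.K034
import Pool.Agent.Lib_helper1.C6.K035
import Pool.Agent.Lib_helper1.C6.K036
import Pool.Agent.Lib_helper1.C6.K037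
import Pool.Agent.Lib_helper1.C6.K038
import Pool.Agent.Lib_helper1.C6.K039
import Pool.Agent.Lib_helper1.C6.K040
import Pool.Agent.Lib_helper1.C6.K041
import Pool.Agent.Lib_helper1.C6.K042
import Pool.Agent.Lib_helper1.C6.K043
import Pool.Agent.Lib_helper1.C6.K044
import Pool.Agent.Lib_helper1.C6.K045
import Pool.Agent.Lib_helper1.C6.K046
import Pool.Agent.Lib_helper1.C6.K047
import Pool.Agent.Lib_helper1.C6.K048
import Pool.Agent.Lib_helper1.C6.K049
import Pool.Agent.Lib_helper1.C6.K050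
import Pool.Agent.Lib_helper1.C6.K051
import Pool.Agent.Lib_helper1.C6.K052
import Pool.Agent.Lib_helper1.C6.K053
import Pool.Agent.Lib_helper1.C6.K054
import Pool.Agent.Lib_helper1.C6.K055
import Pool.Agent.Lib_helper1.C6.K056
import Pool.Agent.Lib_helper1.C6.K057
import Pool.Agent.Lib_helper1.C6.K058
import Pool.Agent.Lib_helper1.C6.K059
import Pool.Agent.Lib_helper1.C6.K060
import Pool.Agent.Lib_helper1.C6.K061
import Pool.Agent.Lib_helper1.C6.K062
import Pool.Agent.Lib_helper1.C6.K063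
import Pool.Agent.Lib_helper1.C6.K064
import Pool.Agent.Lib_helper1.C6.K065
import Pool.Agent.Lib_helper1.C6.K066
import Pool.Agent.Lib_helper1.C6.K067
import Pool.Agent.Lib_helper1.C6.K068
import Pool.Agent.Lib_helper1.C6.K069
import Pool.Agent.Lib_helper1.C6.K070
import Pool.Agent.Lib_helper1.C6.K071
import Pool.Agent.Lib_helper1.C6.K072
import Pool.Agent.Lib_helper1.C6.K073
import Pool.Agent.Lib_helper1.C6.K074
import Pool.Agent.Lib_helper1.C6.K075
import Pool.Agent.Lib_helper1.C6.K076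
import Pool.Agent.Lib_helper1.C6.K077
import Pool.Agent.Lib_helper1.C6.K078
import Pool.Agent.Lib_helper1.C6.K079
import Pool.Agent.Lib_helper1.C6.K080

set_option maxRecDepth 100000

namespace Pool.Agent.Lib_helper1.C6

open Pool.Agent.Lib_helper1.V Pool.Agent.Lib_helper2.Collatz

/-- the parameters of the certificate: `g = 1147 / 1250`, growth `1005 / 1000` per digit -/
def K : Cert :=
  { k := 16, q := 20, u := 1147, v := 1250, A := 18366, B := 50080, C := 94600, D := 65536, P1 := 1005, P2 := 1000 }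

theorem good1 : Good1 P where
  hs := by decide +kernel
  hj := by decide +kernel
  hL := by decide +kernel
  heb := by decide +kernel
  hcw := by decide +kernel
  hsh := by decide +kernel
  hA := by decide +kernel
  hC := by decide +kernel
  hB := by decide +kernel

theorem good2 : Good2 P where
  hxa := by decide +kernel
  hxb1 := by decide +kernel
  heb1 := by decide +kernel
  hfa := by decide +kernel
  hef := by decide +kernel
  hKR1 := by decide +kernel
  hKR2 := by decide +kernel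
  hsa := by decide +kernel
  hsb3 := by decide +kernel
  hF := by decide +kernel
  hF3 := by decide +kernel
  hKs := by decide +kernel

/-- first members of the blocks -/
def starts : List ℕ := [2, 3971, 1379, 5348, 2756, 164, 4133, 1541, 5510, 2918, 326, 4295, 1703, 5672, 3080, 488, 4457, 1865, 5834, 3242, 650, 4619, 2027, 5996, 3404, 812, 4781, 2189, 6158, 3566, 974, 4943, 2351, 6320, 3728, 1136, 5105, 2513, 6482, 3890, 1298, 5267, 2675, 83, 4052, 1460, 5429, 2837, 245, 4214, 1622, 5591, 2999, 407, 4376, 1784, 5753, 3161, 569, 4538, 1946, 5915, 3323, 731, 4700, 2108, 6077, 3485, 893, 4862, 2270, 6239, 3647, 1055, 5024, 2432, 6401, 3809, 1217, 5186, 2594]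

theorem checked : Checked P Ed 4921 27 8 starts where
  g1 := good1
  g2 := good2
  hinv := by decide +kernel
  hcov := by decide +kernel
  hblk := List.forall_mem_cons.2 ⟨t0, List.forall_mem_cons.2 ⟨t1, List.forall_mem_cons.2 ⟨t2, List.forall_mem_cons.2 ⟨t3, 
    List.forall_mem_cons.2 ⟨t4, List.forall_mem_cons.2 ⟨t5, List.forall_mem_cons.2 ⟨t6, List.forall_mem_cons.2 ⟨t7, 
    List.forall_mem_cons.2 ⟨t8, List.forall_mem_cons.2 ⟨t9, List.forall_mem_cons.2 ⟨t10, List.forall_mem_cons.2 ⟨t11, 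
    List.forall_mem_cons.2 ⟨t12, List.forall_mem_cons.2 ⟨t13, List.forall_mem_cons.2 ⟨t14, List.forall_mem_cons.2 ⟨t15, 
    List.forall_mem_cons.2 ⟨t16, List.forall_mem_cons.2 ⟨t17, List.forall_mem_cons.2 ⟨t18, List.forall_mem_cons.2 ⟨t19, 
    List.forall_mem_cons.2 ⟨t20, List.forall_mem_cons.2 ⟨t21, List.forall_mem_cons.2 ⟨t22, List.forall_mem_cons.2 ⟨t23, 
    List.forall_mem_cons.2 ⟨t24, List.forall_mem_cons.2 ⟨t25, List.forall_mem_cons.2 ⟨t26, List.forall_mem_cons.2 ⟨t27, 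
    List.forall_mem_cons.2 ⟨t28, List.forall_mem_cons.2 ⟨t29, List.forall_mem_cons.2 ⟨t30, List.forall_mem_cons.2 ⟨t31, 
    List.forall_mem_cons.2 ⟨t32, List.forall_mem_cons.2 ⟨t33, List.forall_mem_cons.2 ⟨t34, List.forall_mem_cons.2 ⟨t35, 
    List.forall_mem_cons.2 ⟨t36, List.forall_mem_cons.2 ⟨t37, List.forall_mem_cons.2 ⟨t38, List.forall_mem_cons.2 ⟨t39, 
    List.forall_mem_cons.2 ⟨t40, List.forall_mem_cons.2 ⟨t41, List.forall_mem_cons.2 ⟨t42, List.forall_mem_cons.2 ⟨t43, 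
    List.forall_mem_cons.2 ⟨t44, List.forall_mem_cons.2 ⟨t45, List.forall_mem_cons.2 ⟨t46, List.forall_mem_cons.2 ⟨t47, 
    List.forall_mem_cons.2 ⟨t48, List.forall_mem_cons.2 ⟨t49, List.forall_mem_cons.2 ⟨t50, List.forall_mem_cons.2 ⟨t51, 
    List.forall_mem_cons.2 ⟨t52, List.forall_mem_cons.2 ⟨t53, List.forall_mem_cons.2 ⟨t54, List.forall_mem_cons.2 ⟨t55, 
    List.forall_mem_cons.2 ⟨t56, List.forall_mem_cons.2 ⟨t57, List.forall_mem_cons.2 ⟨t58, List.forall_mem_cons.2 ⟨t59, 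
    List.forall_mem_cons.2 ⟨t60, List.forall_mem_cons.2 ⟨t61, List.forall_mem_cons.2 ⟨t62, List.forall_mem_cons.2 ⟨t63, 
    List.forall_mem_cons.2 ⟨t64, List.forall_mem_cons.2 ⟨t65, List.forall_mem_cons.2 ⟨t66, List.forall_mem_cons.2 ⟨t67, 
    List.forall_mem_cons.2 ⟨t68, List.forall_mem_cons.2 ⟨t69, List.forall_mem_cons.2 ⟨t70, List.forall_mem_cons.2 ⟨t71, 
    List.forall_mem_cons.2 ⟨t72, List.forall_mem_cons.2 ⟨t73, List.forall_mem_cons.2 ⟨t74, List.forall_mem_cons.2 ⟨t75, 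
    List.forall_mem_cons.2 ⟨t76, List.forall_mem_cons.2 ⟨t77, List.forall_mem_cons.2 ⟨t78, List.forall_mem_cons.2 ⟨t79, 
    List.forall_mem_cons.2 ⟨t80, List.forall_mem_nil _⟩⟩⟩⟩⟩⟩⟩⟩⟩⟩⟩⟩⟩⟩⟩⟩⟩⟩⟩⟩⟩⟩⟩⟩⟩⟩⟩⟩⟩⟩⟩⟩⟩⟩⟩⟩⟩⟩⟩⟩⟩⟩⟩⟩⟩⟩⟩⟩⟩⟩⟩⟩⟩⟩⟩⟩⟩⟩⟩⟩⟩⟩⟩⟩⟩⟩⟩⟩⟩⟩⟩⟩⟩⟩⟩⟩⟩⟩⟩⟩⟩

theorem certOK : CertOK K (cF P Ed (8 + 27)) (eF P Ed) :=
  checked.certOK (by decide +kernel) rfl rfl rfl rfl rfl (by decide +kernel) (by decide +kernel)
    (by decide +kernel) (by decide +kernel) (by decide +kernel) (by decide +kernel)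
    (by decide +kernel) (by decide +kernel) (by decide +kernel) (by decide +kernel)

end Pool.Agent.Lib_helper1.C6
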