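import Pool.Agent.Lib_helper1.C6.D000
import Pool.Agent.Lib_helper1.C6.D001
import Pool.Agent.Lib_helper1.C6.D002
import Pool.Agent.Lib_helper1.C6.D003
import Pool.Agent.Lib_helper1.C6.D004
import Pool.Agent.Lib_helper1.C6.D005
import Pool.Agent.Lib_helper1.C6.D006
import Pool.Agent.Lib_helper1.C6.D007
import Pool.Agent.Lib_helper1.C6.D008

set_option maxRecDepth 100000

namespace Pool.Agent.Lib_helper1.C6

open Pool.Agent.Lib_helper1.V

noncomputable section

/-- the table, by chunks -/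
def Ei (i : Nat) : Nat := (cond (Nat.ble i 242) (cond (Nat.ble i 120) (cond (Nat.ble i 59) (cond (Nat.ble i 29) (cond (Nat.ble i 14) (cond (Nat.ble i 6) (cond (Nat.ble i 2) (cond (Nat.ble i 0) e0 (cond (Nat.ble i 1) e1 e2)) (cond (Nat.ble i 4) (cond (Nat.ble i 3) e3 e4) (cond (Nat.ble i 5) e5 e6))) (cond (Nat.ble i 10) (cond (Nat.ble i 8) (cond (Nat.ble i 7) e7 e8) (cond (Nat.ble i 9) e9 e10)) (cond (Nat.ble i 12) (cond (Nat.ble i 11) e11 e12) (cond (Nat.ble i 13) e13 e14)))) (cond (Nat.ble i 21) (cond (Nat.ble i 17) (cond (Nat.ble i 15) e15 (cond (Nat.ble i 16) e16 e17)) (cond (Nat.ble i 19) (cond (Nat.ble i 18) e18 e19) (cond (Nat.ble i 20) e20 e21))) (cond (Nat.ble i 25) (cond (Nat.ble i 23) (cond (Nat.ble i 22) e22 e23) (cond (Nat.ble i 24) e24 e25)) (cond (Nat.ble i 27) (cond (Nat.ble i 26) e26 e27) (cond (Nat.ble i 28) e28 e29))))) (cond (Nat.ble i 44) (cond (Nat.ble i 36) (cond (Nat.ble i 32) (cond (Nat.ble i 30) e30 (cond (Nat.ble i 31) e31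 e32)) (cond (Nat.ble i 34) (cond (Nat.ble i 33) e33 e34) (cond (Nat.ble i 35) e35 e36))) (cond (Nat.ble i 40) (cond (Nat.ble i 38) (cond (Nat.ble i 37) e37 e38) (cond (Nat.ble i 39) e39 e40)) (cond (Nat.ble i 42) (cond (Nat.ble i 41) e41 e42) (cond (Nat.ble i 43) e43 e44)))) (cond (Nat.ble i 51) (cond (Nat.ble i 47) (cond (Nat.ble i 45) e45 (cond (Nat.ble i 46) e46 e47)) (cond (Nat.ble i 49) (cond (Nat.ble i 48) e48 e49) (cond (Nat.ble i 50) e50 e51))) (cond (Nat.ble i 55) (cond (Nat.ble i 53) (cond (Nat.ble i 52) e52 e53) (cond (Nat.ble i 54) e54 e55)) (cond (Nat.ble i 57) (cond (Nat.ble i 56) e56 e57) (cond (Nat.ble i 58) e58 e59)))))) (cond (Nat.ble i 89) (cond (Nat.ble i 74) (cond (Nat.ble i 66) (cond (Nat.ble i 62) (cond (Nat.ble i 60) e60 (cond (Nat.ble i 61) e61 e62)) (cond (Nat.ble i 64) (cond (Nat.ble i 63) e63 e64) (cond (Nat.ble i 65) e65 e66))) (cond (Nat.ble i 70) (cond (Nat.ble i 68) (cond (Nat.ble i 67) e67 e68) (cond (Nat.ble i 69)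 e69 e70)) (cond (Nat.ble i 72) (cond (Nat.ble i 71) e71 e72) (cond (Nat.ble i 73) e73 e74)))) (cond (Nat.ble i 81) (cond (Nat.ble i 77) (cond (Nat.ble i 75) e75 (cond (Nat.ble i 76) e76 e77)) (cond (Nat.ble i 79) (cond (Nat.ble i 78) e78 e79) (cond (Nat.ble i 80) e80 e81))) (cond (Nat.ble i 85) (cond (Nat.ble i 83) (cond (Nat.ble i 82) e82 e83) (cond (Nat.ble i 84) e84 e85)) (cond (Nat.ble i 87) (cond (Nat.ble i 86) e86 e87) (cond (Nat.ble i 88) e88 e89))))) (cond (Nat.ble i 104) (cond (Nat.ble i 96) (cond (Nat.ble i 92) (cond (Nat.ble i 90) e90 (cond (Nat.ble i 91) e91 e92)) (cond (Nat.ble i 94) (cond (Nat.ble i 93) e93 e94) (cond (Nat.ble i 95) e95 e96))) (cond (Nat.ble i 100) (cond (Nat.ble i 98) (cond (Nat.ble i 97) e97 e98) (cond (Nat.ble i 99) e99 e100)) (cond (Nat.ble i 102) (cond (Nat.ble i 101) e101 e102) (cond (Nat.ble i 103) e103 e104)))) (cond (Nat.ble i 112) (cond (Nat.ble i 108) (cond (Nat.ble i 106) (cond (Nat.ble i 105) e105 e106)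 (cond (Nat.ble i 107) e107 e108)) (cond (Nat.ble i 110) (cond (Nat.ble i 109) e109 e110) (cond (Nat.ble i 111) e111 e112))) (cond (Nat.ble i 116) (cond (Nat.ble i 114) (cond (Nat.ble i 113) e113 e114) (cond (Nat.ble i 115) e115 e116)) (cond (Nat.ble i 118) (cond (Nat.ble i 117) e117 e118) (cond (Nat.ble i 119) e119 e120))))))) (cond (Nat.ble i 181) (cond (Nat.ble i 150) (cond (Nat.ble i 135) (cond (Nat.ble i 127) (cond (Nat.ble i 123) (cond (Nat.ble i 121) e121 (cond (Nat.ble i 122) e122 e123)) (cond (Nat.ble i 125) (cond (Nat.ble i 124) e124 e125) (cond (Nat.ble i 126) e126 e127))) (cond (Nat.ble i 131) (cond (Nat.ble i 129) (cond (Nat.ble i 128) e128 e129) (cond (Nat.ble i 130) e130 e131)) (cond (Nat.ble i 133) (cond (Nat.ble i 132) e132 e133) (cond (Nat.ble i 134) e134 e135)))) (cond (Nat.ble i 142) (cond (Nat.ble i 138) (cond (Nat.ble i 136) e136 (cond (Nat.ble i 137) e137 e138)) (cond (Nat.ble i 140) (cond (Nat.ble i 139) e139 e140) (cond (Nat.ble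 i 141) e141 e142))) (cond (Nat.ble i 146) (cond (Nat.ble i 144) (cond (Nat.ble i 143) e143 e144) (cond (Nat.ble i 145) e145 e146)) (cond (Nat.ble i 148) (cond (Nat.ble i 147) e147 e148) (cond (Nat.ble i 149) e149 e150))))) (cond (Nat.ble i 165) (cond (Nat.ble i 157) (cond (Nat.ble i 153) (cond (Nat.ble i 151) e151 (cond (Nat.ble i 152) e152 e153)) (cond (Nat.ble i 155) (cond (Nat.ble i 154) e154 e155) (cond (Nat.ble i 156) e156 e157))) (cond (Nat.ble i 161) (cond (Nat.ble i 159) (cond (Nat.ble i 158) e158 e159) (cond (Nat.ble i 160) e160 e161)) (cond (Nat.ble i 163) (cond (Nat.ble i 162) e162 e163) (cond (Nat.ble i 164) e164 e165)))) (cond (Nat.ble i 173) (cond (Nat.ble i 169) (cond (Nat.ble i 167) (cond (Nat.ble i 166) e166 e167) (cond (Nat.ble i 168) e168 e169)) (cond (Nat.ble i 171) (cond (Nat.ble i 170) e170 e171) (cond (Nat.ble i 172) e172 e173))) (cond (Nat.ble i 177) (cond (Nat.ble i 175) (cond (Nat.ble i 174) e174 e175) (cond (Nat.ble i 176)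 e176 e177)) (cond (Nat.ble i 179) (cond (Nat.ble i 178) e178 e179) (cond (Nat.ble i 180) e180 e181)))))) (cond (Nat.ble i 211) (cond (Nat.ble i 196) (cond (Nat.ble i 188) (cond (Nat.ble i 184) (cond (Nat.ble i 182) e182 (cond (Nat.ble i 183) e183 e184)) (cond (Nat.ble i 186) (cond (Nat.ble i 185) e185 e186) (cond (Nat.ble i 187) e187 e188))) (cond (Nat.ble i 192) (cond (Nat.ble i 190) (cond (Nat.ble i 189) e189 e190) (cond (Nat.ble i 191) e191 e192)) (cond (Nat.ble i 194) (cond (Nat.ble i 193) e193 e194) (cond (Nat.ble i 195) e195 e196)))) (cond (Nat.ble i 203) (cond (Nat.ble i 199) (cond (Nat.ble i 197) e197 (cond (Nat.ble i 198) e198 e199)) (cond (Nat.ble i 201) (cond (Nat.ble i 200) e200 e201) (cond (Nat.ble i 202) e202 e203))) (cond (Nat.ble i 207) (cond (Nat.ble i 205) (cond (Nat.ble i 204) e204 e205) (cond (Nat.ble i 206) e206 e207)) (cond (Nat.ble i 209) (cond (Nat.ble i 208) e208 e209) (cond (Nat.ble i 210) e210 e211))))) (cond (Nat.ble i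 226) (cond (Nat.ble i 218) (cond (Nat.ble i 214) (cond (Nat.ble i 212) e212 (cond (Nat.ble i 213) e213 e214)) (cond (Nat.ble i 216) (cond (Nat.ble i 215) e215 e216) (cond (Nat.ble i 217) e217 e218))) (cond (Nat.ble i 222) (cond (Nat.ble i 220) (cond (Nat.ble i 219) e219 e220) (cond (Nat.ble i 221) e221 e222)) (cond (Nat.ble i 224) (cond (Nat.ble i 223) e223 e224) (cond (Nat.ble i 225) e225 e226)))) (cond (Nat.ble i 234) (cond (Nat.ble i 230) (cond (Nat.ble i 228) (cond (Nat.ble i 227) e227 e228) (cond (Nat.ble i 229) e229 e230)) (cond (Nat.ble i 232) (cond (Nat.ble i 231) e231 e232) (cond (Nat.ble i 233) e233 e234))) (cond (Nat.ble i 238) (cond (Nat.ble i 236) (cond (Nat.ble i 235) e235 e236) (cond (Nat.ble i 237) e237 e238)) (cond (Nat.ble i 240) (cond (Nat.ble i 239) e239 e240) (cond (Nat.ble i 241) e241 e242)))))))) (cond (Nat.ble i 363) (cond (Nat.ble i 302) (cond (Nat.ble i 272) (cond (Nat.ble i 257) (cond (Nat.ble i 249) (cond (Nat.ble i 245)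 (cond (Nat.ble i 243) e243 (cond (Nat.ble i 244) e244 e245)) (cond (Nat.ble i 247) (cond (Nat.ble i 246) e246 e247) (cond (Nat.ble i 248) e248 e249))) (cond (Nat.ble i 253) (cond (Nat.ble i 251) (cond (Nat.ble i 250) e250 e251) (cond (Nat.ble i 252) e252 e253)) (cond (Nat.ble i 255) (cond (Nat.ble i 254) e254 e255) (cond (Nat.ble i 256) e256 e257)))) (cond (Nat.ble i 264) (cond (Nat.ble i 260) (cond (Nat.ble i 258) e258 (cond (Nat.ble i 259) e259 e260)) (cond (Nat.ble i 262) (cond (Nat.ble i 261) e261 e262) (cond (Nat.ble i 263) e263 e264))) (cond (Nat.ble i 268) (cond (Nat.ble i 266) (cond (Nat.ble i 265) e265 e266) (cond (Nat.ble i 267) e267 e268)) (cond (Nat.ble i 270) (cond (Nat.ble i 269) e269 e270) (cond (Nat.ble i 271) e271 e272))))) (cond (Nat.ble i 287) (cond (Nat.ble i 279) (cond (Nat.ble i 275) (cond (Nat.ble i 273) e273 (cond (Nat.ble i 274) e274 e275)) (cond (Nat.ble i 277) (cond (Nat.ble i 276) e276 e277) (cond (Nat.ble i 278) e278 e279)))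 (cond (Nat.ble i 283) (cond (Nat.ble i 281) (cond (Nat.ble i 280) e280 e281) (cond (Nat.ble i 282) e282 e283)) (cond (Nat.ble i 285) (cond (Nat.ble i 284) e284 e285) (cond (Nat.ble i 286) e286 e287)))) (cond (Nat.ble i 294) (cond (Nat.ble i 290) (cond (Nat.ble i 288) e288 (cond (Nat.ble i 289) e289 e290)) (cond (Nat.ble i 292) (cond (Nat.ble i 291) e291 e292) (cond (Nat.ble i 293) e293 e294))) (cond (Nat.ble i 298) (cond (Nat.ble i 296) (cond (Nat.ble i 295) e295 e296) (cond (Nat.ble i 297) e297 e298)) (cond (Nat.ble i 300) (cond (Nat.ble i 299) e299 e300) (cond (Nat.ble i 301) e301 e302)))))) (cond (Nat.ble i 332) (cond (Nat.ble i 317) (cond (Nat.ble i 309) (cond (Nat.ble i 305) (cond (Nat.ble i 303) e303 (cond (Nat.ble i 304) e304 e305)) (cond (Nat.ble i 307) (cond (Nat.ble i 306) e306 e307) (cond (Nat.ble i 308) e308 e309))) (cond (Nat.ble i 313) (cond (Nat.ble i 311) (cond (Nat.ble i 310) e310 e311) (cond (Nat.ble i 312) e312 e313)) (cond (Nat.ble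 i 315) (cond (Nat.ble i 314) e314 e315) (cond (Nat.ble i 316) e316 e317)))) (cond (Nat.ble i 324) (cond (Nat.ble i 320) (cond (Nat.ble i 318) e318 (cond (Nat.ble i 319) e319 e320)) (cond (Nat.ble i 322) (cond (Nat.ble i 321) e321 e322) (cond (Nat.ble i 323) e323 e324))) (cond (Nat.ble i 328) (cond (Nat.ble i 326) (cond (Nat.ble i 325) e325 e326) (cond (Nat.ble i 327) e327 e328)) (cond (Nat.ble i 330) (cond (Nat.ble i 329) e329 e330) (cond (Nat.ble i 331) e331 e332))))) (cond (Nat.ble i 347) (cond (Nat.ble i 339) (cond (Nat.ble i 335) (cond (Nat.ble i 333) e333 (cond (Nat.ble i 334) e334 e335)) (cond (Nat.ble i 337) (cond (Nat.ble i 336) e336 e337) (cond (Nat.ble i 338) e338 e339))) (cond (Nat.ble i 343) (cond (Nat.ble i 341) (cond (Nat.ble i 340) e340 e341) (cond (Nat.ble i 342) e342 e343)) (cond (Nat.ble i 345) (cond (Nat.ble i 344) e344 e345) (cond (Nat.ble i 346) e346 e347)))) (cond (Nat.ble i 355) (cond (Nat.ble i 351) (cond (Nat.ble i 349) (cond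 (Nat.ble i 348) e348 e349) (cond (Nat.ble i 350) e350 e351)) (cond (Nat.ble i 353) (cond (Nat.ble i 352) e352 e353) (cond (Nat.ble i 354) e354 e355))) (cond (Nat.ble i 359) (cond (Nat.ble i 357) (cond (Nat.ble i 356) e356 e357) (cond (Nat.ble i 358) e358 e359)) (cond (Nat.ble i 361) (cond (Nat.ble i 360) e360 e361) (cond (Nat.ble i 362) e362 e363))))))) (cond (Nat.ble i 424) (cond (Nat.ble i 393) (cond (Nat.ble i 378) (cond (Nat.ble i 370) (cond (Nat.ble i 366) (cond (Nat.ble i 364) e364 (cond (Nat.ble i 365) e365 e366)) (cond (Nat.ble i 368) (cond (Nat.ble i 367) e367 e368) (cond (Nat.ble i 369) e369 e370))) (cond (Nat.ble i 374) (cond (Nat.ble i 372) (cond (Nat.ble i 371) e371 e372) (cond (Nat.ble i 373) e373 e374)) (cond (Nat.ble i 376) (cond (Nat.ble i 375) e375 e376) (cond (Nat.ble i 377) e377 e378)))) (cond (Nat.ble i 385) (cond (Nat.ble i 381) (cond (Nat.ble i 379) e379 (cond (Nat.ble i 380) e380 e381)) (cond (Nat.ble i 383) (cond (Nat.ble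 i 382) e382 e383) (cond (Nat.ble i 384) e384 e385))) (cond (Nat.ble i 389) (cond (Nat.ble i 387) (cond (Nat.ble i 386) e386 e387) (cond (Nat.ble i 388) e388 e389)) (cond (Nat.ble i 391) (cond (Nat.ble i 390) e390 e391) (cond (Nat.ble i 392) e392 e393))))) (cond (Nat.ble i 408) (cond (Nat.ble i 400) (cond (Nat.ble i 396) (cond (Nat.ble i 394) e394 (cond (Nat.ble i 395) e395 e396)) (cond (Nat.ble i 398) (cond (Nat.ble i 397) e397 e398) (cond (Nat.ble i 399) e399 e400))) (cond (Nat.ble i 404) (cond (Nat.ble i 402) (cond (Nat.ble i 401) e401 e402) (cond (Nat.ble i 403) e403 e404)) (cond (Nat.ble i 406) (cond (Nat.ble i 405) e405 e406) (cond (Nat.ble i 407) e407 e408)))) (cond (Nat.ble i 416) (cond (Nat.ble i 412) (cond (Nat.ble i 410) (cond (Nat.ble i 409) e409 e410) (cond (Nat.ble i 411) e411 e412)) (cond (Nat.ble i 414) (cond (Nat.ble i 413) e413 e414) (cond (Nat.ble i 415) e415 e416))) (cond (Nat.ble i 420) (cond (Nat.ble i 418) (cond (Nat.ble i 417)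 e417 e418) (cond (Nat.ble i 419) e419 e420)) (cond (Nat.ble i 422) (cond (Nat.ble i 421) e421 e422) (cond (Nat.ble i 423) e423 e424)))))) (cond (Nat.ble i 454) (cond (Nat.ble i 439) (cond (Nat.ble i 431) (cond (Nat.ble i 427) (cond (Nat.ble i 425) e425 (cond (Nat.ble i 426) e426 e427)) (cond (Nat.ble i 429) (cond (Nat.ble i 428) e428 e429) (cond (Nat.ble i 430) e430 e431))) (cond (Nat.ble i 435) (cond (Nat.ble i 433) (cond (Nat.ble i 432) e432 e433) (cond (Nat.ble i 434) e434 e435)) (cond (Nat.ble i 437) (cond (Nat.ble i 436) e436 e437) (cond (Nat.ble i 438) e438 e439)))) (cond (Nat.ble i 446) (cond (Nat.ble i 442) (cond (Nat.ble i 440) e440 (cond (Nat.ble i 441) e441 e442)) (cond (Nat.ble i 444) (cond (Nat.ble i 443) e443 e444) (cond (Nat.ble i 445) e445 e446))) (cond (Nat.ble i 450) (cond (Nat.ble i 448) (cond (Nat.ble i 447) e447 e448) (cond (Nat.ble i 449) e449 e450)) (cond (Nat.ble i 452) (cond (Nat.ble i 451) e451 e452) (cond (Nat.ble i 453)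 e453 e454))))) (cond (Nat.ble i 469) (cond (Nat.ble i 461) (cond (Nat.ble i 457) (cond (Nat.ble i 455) e455 (cond (Nat.ble i 456) e456 e457)) (cond (Nat.ble i 459) (cond (Nat.ble i 458) e458 e459) (cond (Nat.ble i 460) e460 e461))) (cond (Nat.ble i 465) (cond (Nat.ble i 463) (cond (Nat.ble i 462) e462 e463) (cond (Nat.ble i 464) e464 e465)) (cond (Nat.ble i 467) (cond (Nat.ble i 466) e466 e467) (cond (Nat.ble i 468) e468 e469)))) (cond (Nat.ble i 477) (cond (Nat.ble i 473) (cond (Nat.ble i 471) (cond (Nat.ble i 470) e470 e471) (cond (Nat.ble i 472) e472 e473)) (cond (Nat.ble i 475) (cond (Nat.ble i 474) e474 e475) (cond (Nat.ble i 476) e476 e477))) (cond (Nat.ble i 481) (cond (Nat.ble i 479) (cond (Nat.ble i 478) e478 e479) (cond (Nat.ble i 480) e480 e481)) (cond (Nat.ble i 483) (cond (Nat.ble i 482) e482 e483) (cond (Nat.ble i 484) e484 e485)))))))))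

/-- the parameters -/
def P : Par :=
  { w := 40, s := 8, j := 8, L := 13, sh := 16, cb := 24, eb := 22,
    A := 18366, B := 50080, C := 94600, q := 20, xb := 27, f := 2, a := 13, sb := 20, F := 262144, a2 := 18, KR := 8654,
    Ks := [(6069, 651), (7051, 13055), (7600, 58481), (7890, 123675), (8040, 180245), (8116, 217562), (8154, 238867), (8173, 250249), (8182, 255818), (8187, 258963), (8190, 260867), (8191, 261505)] }

/-- the table, by low digits -/
def Ed (b : Nat) : Nat := EdOf P (fun x => Ei (idx9 x)) b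

end

end Pool.Agent.Lib_helper1.C6
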